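import Mathlib

namespace Pool.Agent.Results.MP_f2fc76_an.Same

open Set Filter Topology Metric

variable {X : Type} [MetricSpace X]

/-- A semi-flow of continuous maps `F t`, `t ≥ 0` (values for `t < 0` are never used). -/
structure IsSemiflow (F : ℝ → X → X) : Prop where
  cont : ∀ t, 0 ≤ t → Continuous (F t)
  zero : ∀ x, F 0 x = x
  add : ∀ t s x, 0 ≤ t → 0 ≤ s → F t (F s x) = F (t + s) x

/-- `(t, x) ↦ F t x` is continuous on `[0, ∞) × X`. -/
def JointlyContinuous (F : ℝ → X → X) : Prop :=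
  ContinuousOn (fun p : ℝ × X => F p.1 p.2) (Ici 0 ×ˢ univ)

/-- `G` is a compact global attractor of `F`. -/
def IsGlobalAttractor (F : ℝ → X → X) (G : Set X) : Prop :=
  IsCompact G ∧ (∀ t, 0 ≤ t → F t '' G = G) ∧ ∀ K, IsCompact K → ∀ δ > 0, ∃ τ : ℝ, ∀ t, 0 ≤ t →
    τ ≤ t → F t '' K ⊆ thickening δ G

/-- `z` is piecewise continuous on `[0, τ]`: continuous off a finite set, with one-sided limits. -/
def PiecewiseCont (z : ℝ → X) (τ : ℝ) : Prop :=
  ∃ S : Set ℝ, S.Finite ∧ (∀ t ∈ Icc 0 τ \ S, ContinuousWithinAt z (Icc 0 τ) t) ∧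
    ∀ t ∈ Icc 0 τ, (0 < t → ∃ l, Tendsto z (𝓝[<] t) (𝓝 l)) ∧ (t < τ → ∃ l, Tendsto z (𝓝[>] t) (𝓝 l))

/-- An `ε`-chain of the map `g` from `x` to `y` in `K`, of duration `k ≥ 1`. -/
def MapChain (g : X → X) (ε : ℝ) (K : Set X) (x y : X) (k : ℕ) : Prop :=
  1 ≤ k ∧ ∃ z : ℕ → X, z 0 = x ∧ z k = y ∧ (∀ i ≤ k, z i ∈ K) ∧
    ∀ i < k, dist (g (z i)) (z (i + 1)) < ε

/-- An `ε`-chain of the semi-flow `F` from `x` to `y` in `K`, of duration `τ ≥ 1`. -/
def FlowChain (F : ℝ → X → X) (ε : ℝ) (K : Set X) (x y : X) (τ : ℝ) : Prop :=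
  1 ≤ τ ∧ ∃ z : ℝ → X, PiecewiseCont z τ ∧ z 0 = x ∧ z τ = y ∧ (∀ t ∈ Icc 0 τ, z t ∈ K) ∧
    ∀ t₀ t₁, 0 ≤ t₀ → t₀ < t₁ → t₁ ≤ τ → t₁ - t₀ ≤ 1 → dist (F (t₁ - t₀) (z t₀)) (z t₁) < ε

/-- `y` is a limit chain point of `x` for the map `g`. -/
def MapLimit (g : X → X) (x y : X) : Prop :=
  ∃ K, IsCompact K ∧ ∃ D : ℝ → ℕ, Tendsto D (𝓝[>] 0) atTop ∧ ∀ ε > 0, MapChain g ε K x y (D ε)

/-- `y` is a limit chain point of `x` for the semi-flow `F`. -/
def FlowLimit (F : ℝ → X → X) (x y : X) : Prop :=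
  ∃ K, IsCompact K ∧ ∃ D : ℝ → ℝ, Tendsto D (𝓝[>] 0) atTop ∧ ∀ ε > 0, FlowChain F ε K x y (D ε)

theorem pick {α : Type} [Preorder α] [Nonempty α] [IsDirectedOrder α] (P : ℝ → α → Prop)
    (u : ℕ → α) (hu : Tendsto u atTop atTop) (h : ∀ ε > 0, ∀ M, ∃ d, M ≤ d ∧ P ε d) :
    ∃ D : ℝ → α, Tendsto D (𝓝[>] 0) atTop ∧ ∀ ε > 0, P ε (D ε) := by
  choose! D h1 h2 using h
  refine ⟨fun ε => D ε (u ⌈ε⁻¹⌉₊), tendsto_atTop_mono' _ ?_
    (hu.comp (tendsto_nat_ceil_atTop.comp tendsto_inv_nhdsGT_zero)), fun ε hε => h2 ε hε _⟩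
  filter_upwards [self_mem_nhdsWithin] with ε hε using h1 ε hε _

theorem unpick {α : Type} [Preorder α] {P : ℝ → α → Prop} {D : ℝ → α}
    (hD : Tendsto D (𝓝[>] 0) atTop) (h : ∀ ε > 0, P ε (D ε)) (δ : ℝ) (hδ : 0 < δ) (M : α) :
    ∃ ε d, ε ≤ δ ∧ M ≤ d ∧ P ε d := by
  obtain ⟨ε, h1, h2⟩ := ((hD.eventually (eventually_ge_atTop M)).and (Ioc_mem_nhdsGT hδ)).exists
  exact ⟨ε, _, h2.2, h1, h ε h2.1⟩

theorem unif {F : ℝ → X → X} (hc : JointlyContinuous F) {K : Set X} (hK : IsCompact K) (R ε : ℝ)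
    (hε : 0 < ε) : ∃ δ > 0, ∀ s ∈ Icc 0 R, ∀ s', 0 ≤ s' → ∀ a ∈ K, ∀ b, |s - s'| < δ →
      dist a b < δ → dist (F s a) (F s' b) < ε := by
  have c : Continuous fun p : ℝ × X => F (max p.1 0) p.2 :=
    hc.comp_continuous (f := fun p : ℝ × X => (max p.1 0, p.2)) (by fun_prop)
      fun p => ⟨le_max_right p.1 0, trivial⟩
  obtain ⟨δ, h0, h⟩ := mem_uniformity_dist.1 (((isCompact_Icc (a := 0) (b := R)).prod
    hK).uniformContinuousAt_of_continuousAt _ (fun _ _ => c.continuousAt) (dist_mem_uniformity hε))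
  refine ⟨δ, h0, fun s hs s' hs' a ha b h1 h2 => ?_⟩
  have := h (a := (s, a)) (b := (s', b)) (by rw [Prod.dist_eq]; exact max_lt h1 h2) ⟨hs, ha⟩
  simpa [hs.1, hs'] using this

theorem steps {F : ℝ → X → X} (hF : IsSemiflow F) (hc : JointlyContinuous F) {K : Set X}
    (hK : IsCompact K) (R : ℝ) (m : ℕ) : ∀ ε > 0, ∃ δ > 0, ∀ s ∈ Icc 0 R, ∀ j ≤ m, ∀ p : ℕ → X,
      (∀ i ≤ j, p i ∈ K) → (∀ i < j, dist (F s (p i)) (p (i + 1)) < δ) →
      dist (F (j * s) (p 0)) (p j) < ε := by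
  induction m with
  | zero => exact fun ε hε => ⟨1, one_pos, fun s _ j hj p _ _ => by
      obtain rfl := Nat.le_zero.1 hj
      simpa [hF.zero] using hε⟩
  | succ m ih =>
    intro ε hε
    obtain ⟨η, η0, hη⟩ := unif hc hK R _ (half_pos hε)
    obtain ⟨δ, δ0, hδ⟩ := ih η η0
    refine ⟨min δ (ε / 2), by positivity, fun s hs j hj p h1 h2 => ?_⟩
    rcases j with _ | j
    · simpa [hF.zero] using hε
    have a1 := hδ s hs j (by omega) p (fun i hi => h1 i (by omega))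
      fun i hi => (h2 i (by omega)).trans_le (min_le_left _ _)
    have a2 := hη s hs s hs.1 _ (h1 j (by omega)) _ (by simpa using η0) (by rwa [dist_comm] at a1)
    have a3 := (h2 j (by omega)).trans_le (min_le_right _ _)
    rw [hF.add _ _ _ hs.1 (mul_nonneg j.cast_nonneg hs.1)] at a2
    rw [show ((j + 1 : ℕ) : ℝ) * s = s + j * s by push_cast; ring]
    linarith [dist_triangle_left (F (s + j * s) (p 0)) (p (j + 1)) (F s (p j))]

theorem to_map {F : ℝ → X → X} (hF : IsSemiflow F) (hc : JointlyContinuous F) {T : ℝ} (hT : 0 < T)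
    {x y : X} (h : FlowLimit F x y) : MapLimit (F T) x y := by
  obtain ⟨K, hK, D, hD, h⟩ := h
  refine ⟨K, hK, pick _ id tendsto_id fun ε hε M => ?_⟩
  obtain ⟨m, hm⟩ := exists_nat_gt (2 * T)
  have m0 : (0 : ℝ) < m := by linarith
  obtain ⟨η, η0, hη⟩ := unif hc hK T _ (half_pos hε)
  obtain ⟨δ, δ0, hδ⟩ := steps hF hc hK 1 m _ (half_pos hε)
  obtain ⟨ε', τ, h1, h2, -, z, -, z0, z1, zK, hz⟩ :=
    unpick hD h δ δ0 (T * (M + 2 + T / η))
  have e0 : 0 < T / η := by positivity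
  have M0 : (0 : ℝ) ≤ M := M.cast_nonneg
  have τ0 : 0 < τ := lt_of_lt_of_le (by positivity) h2
  have k1 : (⌊τ / T⌋₊ : ℝ) ≤ τ / T := Nat.floor_le (by positivity)
  have k2 : τ / T < ⌊τ / T⌋₊ + 1 := Nat.lt_floor_add_one _
  generalize ⌊τ / T⌋₊ = k at k1 k2
  have k3 : M + 2 + T / η ≤ τ / T := by rwa [le_div_iff₀' hT]
  have k0 : (1 : ℝ) < k := by linarith
  obtain ⟨S, rfl⟩ : ∃ S, τ = k * S := ⟨τ / k, by field_simp⟩
  rw [le_div_iff₀ hT] at k1
  rw [div_lt_iff₀ hT] at k2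
  have S1 : T ≤ S := le_of_mul_le_mul_left k1 (by linarith)
  have S2 : S - T < η := by
    have : T / η < k := by linarith [div_lt_iff₀ hT |>.2 k2]
    rw [div_lt_iff₀ η0] at this
    nlinarith
  have S3 : S < 2 * T := by nlinarith
  have S0 : 0 < S := by linarith
  refine ⟨k, by exact_mod_cast (show (M : ℝ) ≤ k by linarith [div_lt_iff₀ hT |>.2 k2]),
    by exact_mod_cast k0.le, fun n => z (n * S), by simpa using z0, z1,
    fun i hi => zK _ ⟨by positivity, by gcongr⟩, fun n hn => ?_⟩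
  have n1 : (n : ℝ) + 1 ≤ k := by exact_mod_cast hn
  have s0 : 0 < S / m := by positivity
  have s1 : S / m ≤ 1 := by rw [div_le_one m0]; linarith
  have s2 : m * (S / m) = S := by field_simp
  have b : ∀ i ≤ m, n * S + i * (S / m) ≤ k * S := fun i hi => by
    have : (i : ℝ) * (S / m) ≤ m * (S / m) := by gcongr
    nlinarith
  have a1 := hδ (S / m) ⟨s0.le, s1⟩ m le_rfl (fun i => z (n * S + i * (S / m)))
    (fun i hi => zK _ ⟨by positivity, b i hi⟩) fun i hi => by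
      have := hz (n * S + i * (S / m)) (n * S + (i + 1 : ℕ) * (S / m)) (by positivity)
        (by push_cast; linarith) (b _ hi) (by push_cast; linarith)
      rw [show n * S + (i + 1 : ℕ) * (S / m) - (n * S + i * (S / m)) = S / m by
        push_cast; ring] at this
      exact this.trans_le h1
  have a2 := hη T ⟨hT.le, le_rfl⟩ S S0.le (z (n * S)) (zK _ ⟨by positivity, by nlinarith⟩)
    (z (n * S))
    (by rw [abs_sub_comm, abs_of_nonneg (by linarith)]; exact S2) (by simpa using η0)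
  simp only [s2, Nat.cast_zero, zero_mul, add_zero] at a1
  simp only [show ((n + 1 : ℕ) : ℝ) * S = n * S + S by push_cast; ring]
  linarith [dist_triangle (F T (z (n * S))) (F S (z (n * S))) (z (n * S + S))]

theorem to_flow {F : ℝ → X → X} (hF : IsSemiflow F) (hc : JointlyContinuous F) {T : ℝ} (hT : 0 < T)
    {x y : X} (h : MapLimit (F T) x y) : FlowLimit F x y := by
  obtain ⟨K, hK, D, hD, h⟩ := h
  refine ⟨_, ((isCompact_Icc (a := 0) (b := T)).prod hK).image_of_continuousOn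
    (hc.mono (prod_mono Icc_subset_Ici_self (subset_univ _))),
    pick _ Nat.cast tendsto_natCast_atTop_atTop fun ε hε M => ?_⟩
  obtain ⟨m, hm⟩ := exists_nat_gt ((1 + T) / T)
  obtain ⟨N, hN⟩ := exists_nat_gt (max M 1 / T)
  rw [div_lt_iff₀ hT] at hm hN
  obtain ⟨η, η0, hη⟩ := unif hc hK T ε hε
  obtain ⟨δ, δ0, hδ⟩ := steps hF hc hK T m η η0
  obtain ⟨ε', k, h1, h2, -, w, w0, w1, wK, hw⟩ := unpick hD h δ δ0 N
  have hk : max M 1 ≤ k * T := hN.le.trans (by gcongr)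
  let g : ℕ → ℝ → X := fun i s => F (max (s - i * T) 0) (w i)
  have gc : ∀ i, Continuous (g i) := fun i =>
    hc.comp_continuous (f := fun s : ℝ => (max (s - i * T) 0, w i)) (by fun_prop)
      fun s => ⟨le_max_right (s - i * T) 0, trivial⟩
  have fl : ∀ (i : ℕ) (s : ℝ), i * T ≤ s → s < (i + 1) * T → ⌊s / T⌋₊ = i := fun i s a b =>
    (Nat.floor_eq_iff (div_nonneg (le_trans (by positivity) a) hT.le)).2
      ⟨by rwa [le_div_iff₀ hT], by rwa [div_lt_iff₀ hT]⟩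
  have ex : ∀ s : ℝ, 0 ≤ s → s ≤ k * T → ∃ i : ℕ, i ≤ k ∧ i * T ≤ s ∧ s < (i + 1) * T :=
    fun s a b => by
      have a1 := (le_div_iff₀ hT).1 (Nat.floor_le (div_nonneg a hT.le))
      exact ⟨_, by exact_mod_cast le_of_mul_le_mul_right (a1.trans b) hT, a1,
        (div_lt_iff₀ hT).1 (Nat.lt_floor_add_one _)⟩
  have ev : ∀ (i : ℕ) (s : ℝ), i * T ≤ s → s < (i + 1) * T → g ⌊s / T⌋₊ s = F (s - i * T) (w i) :=
    fun i s a b => by rw [fl i s a b]; simp only [g]; rw [max_eq_left (by linarith)]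
  refine ⟨k * T, (le_max_left _ _).trans hk, (le_max_right _ _).trans hk, fun s => g ⌊s / T⌋₊ s,
    ⟨(fun i : ℕ => i * T) '' Iic k, (finite_Iic k).image _, fun t ht => ?_, fun t ht => ⟨fun t0 => ?_,
      fun _ => ?_⟩⟩, by simp [g, hF.zero, w0], ?_, fun t ht => ?_, fun t₀ t₁ a b c d => ?_⟩
  · obtain ⟨i, i1, i2, i3⟩ := ex t ht.1.1 ht.1.2
    have i4 : i * T < t := i2.lt_of_ne fun h => ht.2 ⟨i, i1, h⟩
    refine ((gc i).continuousAt.congr ?_).continuousWithinAt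
    filter_upwards [Ioo_mem_nhds i4 i3] with s hs
    rw [fl i s hs.1.le hs.2]
  · obtain ⟨i, i1, i2⟩ : ∃ i : ℕ, i * T < t ∧ t ≤ (i + 1) * T := by
      obtain ⟨i, -, i2, i3⟩ := ex t ht.1 ht.2
      rcases i2.eq_or_lt with h | h
      · rcases i with _ | i
        · simp [← h] at t0
        · push_cast at h
          exact ⟨i, by linarith, h.ge⟩
      · exact ⟨i, h, i3.le⟩
    refine ⟨g i t, ((gc i).continuousWithinAt.tendsto).congr' ?_⟩
    filter_upwards [Ioo_mem_nhdsLT i1] with s hs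
    rw [fl i s hs.1.le (hs.2.trans_le i2)]
  · obtain ⟨i, -, i2, i3⟩ := ex t ht.1 ht.2
    refine ⟨g i t, ((gc i).continuousWithinAt.tendsto).congr' ?_⟩
    filter_upwards [Ioo_mem_nhdsGT i3] with s hs
    rw [fl i s (i2.trans hs.1.le) hs.2]
  · simp only
    rw [ev k _ le_rfl (by linarith), sub_self, hF.zero, w1]
  · obtain ⟨i, i1, i2, i3⟩ := ex t ht.1 ht.2
    exact ⟨(t - i * T, w i), ⟨⟨by linarith, by linarith⟩, wK i i1⟩, (ev i t i2 i3).symm⟩
  · obtain ⟨i, i1, i2, i3⟩ := ex t₀ a (by linarith)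
    obtain ⟨l, l1, l2, l3⟩ := ex t₁ (by linarith) c
    have il : i ≤ l := Nat.lt_succ_iff.1 (by
      exact_mod_cast lt_of_mul_lt_mul_right (show i * T < (l + 1) * T by linarith) hT.le)
    obtain ⟨j, rfl⟩ := Nat.exists_eq_add_of_le il
    push_cast at l2 l3
    have jm : j ≤ m := le_of_lt (by
      exact_mod_cast lt_of_mul_lt_mul_right (show j * T < m * T by linarith) hT.le)
    have a1 := hδ T ⟨hT.le, le_rfl⟩ j jm (fun n => w (i + n)) (fun n hn => wK _ (by omega))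
      fun n hn => (hw (i + n) (by omega)).trans_le h1
    have a2 := hη (t₁ - (i + j) * T) ⟨by linarith, by linarith⟩ (t₁ - (i + j) * T) (by linarith)
      _ (wK _ l1) _ (by simpa using η0) (by rwa [dist_comm] at a1)
    simp only
    rw [ev i t₀ i2 i3, ev (i + j) t₁ (by push_cast; linarith) (by push_cast; linarith),
      hF.add _ _ _ (by linarith) (by linarith), dist_comm]
    rw [hF.add _ _ _ (by linarith) (by positivity)] at a2
    rw [show t₁ - t₀ + (t₀ - i * T) = t₁ - (i + j) * T + j * T by ring, Nat.cast_add]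
    exact a2

theorem result :
    (∀ (X : Type) [MetricSpace X] (F : ℝ → X → X), IsSemiflow F → JointlyContinuous F →
      ∀ T > 0, ∀ x y : X, FlowLimit F x y ↔ MapLimit (F T) x y) ∧
    ∃ (F : ℝ → UnitAddCircle → UnitAddCircle) (G : Set UnitAddCircle), IsSemiflow F ∧
      IsGlobalAttractor F G ∧ MapLimit (F 1) 0 0 ∧ ¬ FlowLimit F 0 0 := by
  refine ⟨fun X _ F hF hc T hT x y => ⟨to_map hF hc hT, to_flow hF hc hT⟩, ?_⟩
  obtain ⟨f, f1, f2⟩ := Submodule.exists_le_ker_of_notMem (p := Submodule.span ℚ {(1 : ℝ)})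
    (v := √2) (fun h => by
      obtain ⟨q, hq⟩ := Submodule.mem_span_singleton.1 h
      exact irrational_sqrt_two ⟨q, by simpa using hq⟩)
  have f0 : f 1 = 0 := f2 (Submodule.mem_span_singleton_self _)
  refine ⟨fun t x => x + ((f t : ℝ) : UnitAddCircle), univ, ⟨fun _ _ => by fun_prop, by simp,
    fun t s x _ _ => ?_⟩, ⟨isCompact_univ, fun t _ => image_univ_of_surjective (add_right_surjective _), fun K _ δ hδ =>
      ⟨0, fun t _ _ => (subset_univ _).trans (self_subset_thickening hδ _)⟩⟩,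
    ⟨univ, isCompact_univ, pick _ id tendsto_id fun ε hε M => ⟨M + 1, by omega, by omega,
      fun _ => 0, rfl, rfl, by simp, by simpa [f0] using fun _ _ => hε⟩⟩, ?_⟩
  · rw [map_add, Rat.cast_add, AddCircle.coe_add]; abel
  rintro ⟨K, -, D, -, h⟩
  obtain ⟨τ1, z, ⟨S, -, -, hz⟩, -, -, -, H⟩ := h (1 / 4) (by norm_num)
  obtain ⟨l, hl⟩ := (hz 0 ⟨le_rfl, by linarith⟩).2 (by linarith)
  obtain ⟨η, η0, hη⟩ := (nhdsGT_basis 0).eventually_iff.1 ((hl.eventually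
    (ball_mem_nhds l (by norm_num : (0 : ℝ) < 1 / 8))).and (Ioo_mem_nhdsGT zero_lt_one))
  have η0 : 0 < η := η0
  obtain ⟨q, q1, q2⟩ := exists_rat_btwn (show -((1 / (2 * f √2) : ℚ) • √2) <
    -((1 / (2 * f √2) : ℚ) • √2) + η / 2 by linarith)
  have fs : f ((1 / (2 * f √2) : ℚ) • √2 + q) = 1 / 2 := by
    rw [map_add, map_smul, show (q : ℝ) = q • (1 : ℝ) by simp, map_smul, f0]
    simp only [smul_eq_mul]
    field_simp
    ring
  generalize hs : (1 / (2 * f √2) : ℚ) • √2 + (q : ℝ) = s at fs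
  have s0 : 0 < s := by linarith
  have s1 : s < η / 2 := by linarith
  obtain ⟨a1, a2⟩ := hη (x := η / 2) ⟨by linarith, by linarith⟩
  obtain ⟨b1, b2⟩ := hη (x := η / 2 + s) ⟨by linarith, by linarith⟩
  have c := H (η / 2) (η / 2 + s) (by linarith) (by linarith) (by linarith [b2.2])
    (by linarith [b2.2])
  simp only [add_sub_cancel_left, fs] at c
  have e : dist (z (η / 2) + (((1 / 2 : ℚ) : ℝ) : UnitAddCircle)) (z (η / 2)) = 1 / 2 := by
    rw [dist_eq_norm, add_sub_cancel_left]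
    simpa using AddCircle.norm_half_period_eq (p := 1)
  have a1 : dist (z (η / 2)) l < 1 / 8 := a1
  have b1 : dist (z (η / 2 + s)) l < 1 / 8 := b1
  linarith [dist_triangle (z (η / 2) + (((1 / 2 : ℚ) : ℝ) : UnitAddCircle)) (z (η / 2 + s))
    (z (η / 2)), dist_triangle_right (z (η / 2 + s)) (z (η / 2)) l]

end Pool.Agent.Results.MP_f2fc76_an.Same
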